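import Pool.Agent.N581.Flow.Rand

/-!
# Upper bound for the expected error of the optimal permutation schedule
-/

open MeasureTheory ProbabilityTheory Filter Topology

namespace Pool.Agent.N581.Flow

variable {Ω : Type*} [MeasurableSpace Ω] {P : Measure Ω} {X : ℕ → ℕ → Ω → ℝ}

/-- `E[α*_{m,n}]`, where `α*_{m,n} = L*_{m,n} - (n + m - 1) τ` and `τ` is the mean time. -/
noncomputable def expError (P : Measure Ω) (X : ℕ → ℕ → Ω → ℝ) (m n : ℕ) : ℝ :=
  ∫ ω, (optMakespan m n (fun i j => X i j ω) - ((n : ℝ) + m - 1) * ∫ ω', X 0 0 ω' ∂P) ∂P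

/-- `x ≤ (x²/b + b)/2`. -/
lemma le_quad {x b : ℝ} (hb : 0 < b) : x ≤ (x ^ 2 / b + b) / 2 := by
  have h1 : x ^ 2 / b + b - 2 * x = (x - b) ^ 2 / b := by field_simp; ring
  have h2 : 0 ≤ (x - b) ^ 2 / b := by positivity
  linarith

lemma integral_four [IsProbabilityMeasure P] {c : ℝ} {G1 G2 G3 : Ω → ℝ} (h1 : Integrable G1 P)
    (h2 : Integrable G2 P) (h3 : Integrable G3 P) :
    Integrable (fun ω => c + G1 ω + G2 ω + G3 ω) P ∧
    ∫ ω, (c + G1 ω + G2 ω + G3 ω) ∂P = c + ∫ ω, G1 ω ∂P + ∫ ω, G2 ω ∂P + ∫ ω, G3 ω ∂P := by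
  have hc : Integrable (fun _ : Ω => c) P := integrable_const c
  have a1 : Integrable (fun ω => c + G1 ω) P := hc.add h1
  have a2 : Integrable (fun ω => c + G1 ω + G2 ω) P := a1.add h2
  have a3 : Integrable (fun ω => c + G1 ω + G2 ω + G3 ω) P := a2.add h3
  refine ⟨a3, ?_⟩
  rw [integral_add a2 h3, integral_add a1 h2, integral_add hc h1]
  simp

lemma integral_lin [IsProbabilityMeasure P] {a c d : ℝ} {S : Ω → ℝ} (hS : Integrable S P) :
    Integrable (fun ω => S ω / a + c - d) P ∧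
    ∫ ω, (S ω / a + c - d) ∂P = (∫ ω, S ω ∂P) / a + c - d := by
  have h1 : Integrable (fun ω => S ω / a) P := hS.div_const a
  have hc : Integrable (fun _ : Ω => c) P := integrable_const c
  have hd : Integrable (fun _ : Ω => d) P := integrable_const d
  have h2 : Integrable (fun ω => S ω / a + c) P := h1.add hc
  refine ⟨h2.sub hd, ?_⟩
  rw [integral_sub h2 hd, integral_add h1 hc, integral_div]
  simp

lemma integral_half [IsProbabilityMeasure P] {b : ℝ} {S : Ω → ℝ} (hS : Integrable S P) :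
    Integrable (fun ω => (S ω / b + b) / 2) P ∧
    ∫ ω, (S ω / b + b) / 2 ∂P = ((∫ ω, S ω ∂P) / b + b) / 2 := by
  have h1 : Integrable (fun ω => S ω / b) P := hS.div_const b
  have hc : Integrable (fun _ : Ω => b) P := integrable_const b
  refine ⟨(h1.add hc).div_const 2, ?_⟩
  rw [integral_div, integral_add h1 hc, integral_div]
  simp

lemma integral_constadd [IsProbabilityMeasure P] {c : ℝ} {S : Ω → ℝ} (hS : Integrable S P) :
    Integrable (fun ω => c + S ω) P ∧ ∫ ω, (c + S ω) ∂P = c + ∫ ω, S ω ∂P := by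
  have hc : Integrable (fun _ : Ω => c) P := integrable_const c
  refine ⟨hc.add hS, ?_⟩
  rw [integral_add hc hS]
  simp

namespace IsTimes

variable (h : IsTimes P X)
include h

lemma mean_split [IsProbabilityMeasure P] (K : ℕ) : ∫ ω, X 0 0 ω ∂P =
    ∫ ω, min (X 0 0 ω) K ∂P + ∫ ω, max (X 0 0 ω - K) 0 ∂P := by
  have hX : Integrable (X 0 0) P := (h.memLp 0 0).integrable one_le_two
  have h1 : Integrable (fun ω => max (X 0 0 ω - K) 0) P :=
    (hX.sub (integrable_const _)).sup (integrable_zero _ _ _)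
  have h2 : Integrable (fun ω => min (X 0 0 ω) (K : ℝ)) P := hX.inf (integrable_const _)
  rw [← integral_add h2 h1]
  congr 1
  ext ω
  rcases le_total (X 0 0 ω) K with hle | hle
  · rw [min_eq_left hle, max_eq_right (by linarith)]; ring
  · rw [min_eq_right hle, max_eq_left (by linarith)]; ring

/-- the pointwise bound. -/
lemma pointwise [IsProbabilityMeasure P] {m n : ℕ} (hm : 1 ≤ m) (hn : 1 ≤ n) (K K' : ℕ) {a b b' : ℝ}
    (ha : 0 < a) (hb : 0 < b) (hb' : 0 < b') {ω : Ω} (hω : ∀ i j, 0 ≤ X i j ω) :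
    optMakespan m n (fun i j => X i j ω) ≤
      (n * ∫ ω, X 0 0 ω ∂P) +
      Real.sqrt n * ((∑ j ∈ Finset.range m, Real.exp ((1 / Real.sqrt n) *
        ∑ i ∈ Finset.range n, (min (X i j ω) K - ∫ ω, min (X 0 0 ω) K ∂P))) / a + Real.log a - 1) +
      ((∑ j ∈ Finset.range m, (∑ i ∈ Finset.range n,
        (max (X i j ω - K) 0 - ∫ ω, max (X 0 0 ω - K) 0 ∂P)) ^ 2) / b + b) / 2 +
      (m : ℝ) ^ 2 * (K' + ((∑ i ∈ Finset.range n, ∑ j ∈ Finset.range m,
        (max (X i j ω - K') 0) ^ 2) / b' + b') / 2) := by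
  have hnpos : (0 : ℝ) < n := by exact_mod_cast hn
  have hsq : 0 < Real.sqrt n := Real.sqrt_pos.2 hnpos
  set τY := ∫ ω, min (X 0 0 ω) (K : ℝ) ∂P with hτY
  set τZ := ∫ ω, max (X 0 0 ω - K) 0 ∂P with hτZ
  set E : ℕ → ℝ := fun j => Real.exp ((1 / Real.sqrt n) *
        ∑ i ∈ Finset.range n, (min (X i j ω) K - τY)) with hE
  set B : ℕ → ℝ := fun j => ∑ i ∈ Finset.range n, (max (X i j ω - K) 0 - τZ) with hB
  set Q : ℝ := ∑ i ∈ Finset.range n, ∑ j ∈ Finset.range m, (max (X i j ω - K') 0) ^ 2 with hQ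
  refine optMakespan_le (n := n) (m := m) hm (T := fun i j => X i j ω) ?_ ?_ ?_ ?_
  · intro i _ j _; exact hω i j
  · intro i hi j hj
    have h1 : X i j ω ≤ K' + max (X i j ω - K') 0 := by
      have := le_max_left (X i j ω - K') 0; linarith
    have h2 := le_quad (x := max (X i j ω - K') 0) hb'
    have h3 : (max (X i j ω - K') 0) ^ 2 ≤ Q := by
      rw [hQ]
      calc (max (X i j ω - K') 0) ^ 2 ≤ ∑ j ∈ Finset.range m, (max (X i j ω - K') 0) ^ 2 :=
            Finset.single_le_sum (f := fun j => (max (X i j ω - K') 0) ^ 2)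
              (fun _ _ => sq_nonneg _) (Finset.mem_range.2 hj)
        _ ≤ _ := Finset.single_le_sum
              (f := fun i => ∑ j ∈ Finset.range m, (max (X i j ω - K') 0) ^ 2)
              (fun _ _ => Finset.sum_nonneg fun _ _ => sq_nonneg _) (Finset.mem_range.2 hi)
    have h4 : (max (X i j ω - K') 0) ^ 2 / b' ≤ Q / b' := by gcongr
    show X i j ω ≤ _
    linarith
  · have : 0 ≤ Q := Finset.sum_nonneg fun _ _ => Finset.sum_nonneg fun _ _ => sq_nonneg _
    positivity
  · intro j hj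
    show ∑ i ∈ Finset.range n, X i j ω ≤ _
    have hsplit : ∑ i ∈ Finset.range n, X i j ω =
        n * (∫ ω, X 0 0 ω ∂P) + ∑ i ∈ Finset.range n, (min (X i j ω) K - τY) + B j := by
      rw [h.mean_split K, hB, ← hτY, ← hτZ]
      simp only
      rw [Finset.sum_sub_distrib, Finset.sum_sub_distrib, Finset.sum_const, Finset.sum_const,
        Finset.card_range, nsmul_eq_mul, nsmul_eq_mul]
      have : ∀ i, X i j ω = min (X i j ω) K + max (X i j ω - K) 0 := by
        intro i
        rcases le_total (X i j ω) K with hle | hle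
        · rw [min_eq_left hle, max_eq_right (by linarith)]; ring
        · rw [min_eq_right hle, max_eq_left (by linarith)]; ring
      rw [Finset.sum_congr rfl fun i _ => this i, Finset.sum_add_distrib]
      ring
    have hA : ∑ i ∈ Finset.range n, (min (X i j ω) K - τY) ≤
        Real.sqrt n * ((∑ j ∈ Finset.range m, E j) / a + Real.log a - 1) := by
      have h1 : ∑ i ∈ Finset.range n, (min (X i j ω) K - τY) = Real.sqrt n * Real.log (E j) := by
        simp only [hE]
        rw [Real.log_exp]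
        field_simp
      have h2 : E j ≤ ∑ j ∈ Finset.range m, E j :=
        Finset.single_le_sum (f := E) (fun _ _ => (Real.exp_pos _).le) (Finset.mem_range.2 hj)
      have hEpos : 0 < E j := Real.exp_pos _
      have hSpos : 0 < ∑ j ∈ Finset.range m, E j := hEpos.trans_le h2
      have h3 : Real.log (E j) ≤ (∑ j ∈ Finset.range m, E j) / a + Real.log a - 1 := by
        have h4 := Real.log_le_log hEpos h2
        have h5 := Real.log_le_sub_one_of_pos (div_pos hSpos ha)
        rw [Real.log_div hSpos.ne' ha.ne'] at h5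
        linarith
      rw [h1]
      exact mul_le_mul_of_nonneg_left h3 hsq.le
    have hBj : B j ≤ ((∑ j ∈ Finset.range m, (B j) ^ 2) / b + b) / 2 := by
      have h1 := le_quad (x := B j) hb
      have h2 : (B j) ^ 2 ≤ ∑ j ∈ Finset.range m, (B j) ^ 2 :=
        Finset.single_le_sum (f := fun j => (B j) ^ 2) (fun _ _ => sq_nonneg _)
          (Finset.mem_range.2 hj)
      have h3 : (B j) ^ 2 / b ≤ (∑ j ∈ Finset.range m, (B j) ^ 2) / b := by gcongr
      linarith
    rw [hsplit]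
    linarith

/-- the bound in expectation. -/
lemma integral_opt_le [IsProbabilityMeasure P] {m n : ℕ} (hm : 1 ≤ m) (hn : 1 ≤ n) (K K' : ℕ)
    {η η' : ℝ} (hη : 0 < η) (hη' : 0 < η')
    (hK : ∫ ω, (max (X 0 0 ω - K) 0) ^ 2 ∂P ≤ η ^ 2)
    (hK' : ∫ ω, (max (X 0 0 ω - K') 0) ^ 2 ∂P ≤ η' ^ 2 / m) :
    ∫ ω, optMakespan m n (fun i j => X i j ω) ∂P ≤
      (n * ∫ ω, X 0 0 ω ∂P) + Real.sqrt n * (Real.log m + (K : ℝ) ^ 2 / 8) +
        η * Real.sqrt (m * n) + (m : ℝ) ^ 2 * (K' + η' * Real.sqrt n) := by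
  have hnpos : (0 : ℝ) < n := by exact_mod_cast hn
  have hmpos : (0 : ℝ) < m := by exact_mod_cast hm
  have hsq : 0 < Real.sqrt n := Real.sqrt_pos.2 hnpos
  have hsqmn : 0 < Real.sqrt (m * n) := Real.sqrt_pos.2 (by positivity)
  set a : ℝ := m * Real.exp ((K : ℝ) ^ 2 / 8) with ha
  have hapos : 0 < a := by positivity
  set b : ℝ := η * Real.sqrt (m * n) with hb
  have hbpos : 0 < b := by positivity
  set b' : ℝ := η' * Real.sqrt n with hb'
  have hb'pos : 0 < b' := by positivity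
  -- integrability
  have hE : ∀ j, Integrable (fun ω => Real.exp ((1 / Real.sqrt n) *
      ∑ i ∈ Finset.range n, (min (X i j ω) K - ∫ ω, min (X 0 0 ω) K ∂P))) P :=
    fun j => (h.exp_moment K n hn j).1
  have hB : ∀ j, Integrable (fun ω => (∑ i ∈ Finset.range n,
      (max (X i j ω - K) 0 - ∫ ω, max (X 0 0 ω - K) 0 ∂P)) ^ 2) P :=
    fun j => (h.sq_moment K n j).1
  have hZ : ∀ i j, Integrable (fun ω => (max (X i j ω - K') 0) ^ 2) P := by
    intro i j
    have : MemLp (fun ω => max (X i j ω - K') 0) 2 P := by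
      refine (h.memLp i j).mono
        (((h.meas i j).sub_const _).max measurable_const).aestronglyMeasurable ?_
      filter_upwards [h.ae_nonneg] with ω hω
      have hK0 : (0 : ℝ) ≤ K' := Nat.cast_nonneg K'
      rw [Real.norm_of_nonneg (le_max_right _ _), Real.norm_of_nonneg (hω i j)]
      exact max_le (by linarith) (hω i j)
    exact this.integrable_sq
  have hZeq : ∀ i j, ∫ ω, (max (X i j ω - K') 0) ^ 2 ∂P = ∫ ω, (max (X 0 0 ω - K') 0) ^ 2 ∂P := by
    intro i j
    exact ((h.ident i j).comp (u := fun x => (max (x - (K' : ℝ)) 0) ^ 2)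
      (((measurable_id.sub_const _).max measurable_const).pow_const 2)).integral_eq
  have hSE : Integrable (fun ω => ∑ j ∈ Finset.range m, Real.exp ((1 / Real.sqrt n) *
      ∑ i ∈ Finset.range n, (min (X i j ω) K - ∫ ω, min (X 0 0 ω) K ∂P))) P :=
    integrable_finsetSum _ fun j _ => hE j
  have hSB : Integrable (fun ω => ∑ j ∈ Finset.range m, (∑ i ∈ Finset.range n,
      (max (X i j ω - K) 0 - ∫ ω, max (X 0 0 ω - K) 0 ∂P)) ^ 2) P :=
    integrable_finsetSum _ fun j _ => hB j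
  have hSZ : Integrable (fun ω => ∑ i ∈ Finset.range n, ∑ j ∈ Finset.range m,
      (max (X i j ω - K') 0) ^ 2) P :=
    integrable_finsetSum _ fun i _ => integrable_finsetSum _ fun j _ => hZ i j
  have hI1 : Integrable (fun ω => Real.sqrt n * ((∑ j ∈ Finset.range m, Real.exp ((1 / Real.sqrt n) *
        ∑ i ∈ Finset.range n, (min (X i j ω) K - ∫ ω, min (X 0 0 ω) K ∂P))) / a +
          Real.log a - 1)) P :=
    (integral_lin hSE).1.const_mul _
  have hI2 : Integrable (fun ω => ((∑ j ∈ Finset.range m, (∑ i ∈ Finset.range n,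
        (max (X i j ω - K) 0 - ∫ ω, max (X 0 0 ω - K) 0 ∂P)) ^ 2) / b + b) / 2) P :=
    (integral_half hSB).1
  have hI3 : Integrable (fun ω => (m : ℝ) ^ 2 * (K' + ((∑ i ∈ Finset.range n,
      ∑ j ∈ Finset.range m, (max (X i j ω - K') 0) ^ 2) / b' + b') / 2)) P :=
    (integral_constadd (integral_half hSZ).1).1.const_mul _
  -- expectations
  have hexp1 : ∫ ω, ∑ j ∈ Finset.range m, Real.exp ((1 / Real.sqrt n) *
      ∑ i ∈ Finset.range n, (min (X i j ω) K - ∫ ω, min (X 0 0 ω) K ∂P)) ∂P ≤ a := by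
    rw [integral_finsetSum _ fun j _ => hE j]
    calc _ ≤ ∑ _j ∈ Finset.range m, Real.exp ((K : ℝ) ^ 2 / 8) :=
          Finset.sum_le_sum fun j _ => (h.exp_moment K n hn j).2
      _ = a := by rw [Finset.sum_const, Finset.card_range, nsmul_eq_mul]
  have hexp2 : ∫ ω, ∑ j ∈ Finset.range m, (∑ i ∈ Finset.range n,
      (max (X i j ω - K) 0 - ∫ ω, max (X 0 0 ω - K) 0 ∂P)) ^ 2 ∂P ≤ m * n * η ^ 2 := by
    rw [integral_finsetSum _ fun j _ => hB j]
    calc _ ≤ ∑ _j ∈ Finset.range m, (n : ℝ) * η ^ 2 := by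
          refine Finset.sum_le_sum fun j _ => ((h.sq_moment K n j).2).trans ?_
          gcongr
      _ = m * n * η ^ 2 := by rw [Finset.sum_const, Finset.card_range, nsmul_eq_mul]; ring
  have hexp3 : ∫ ω, ∑ i ∈ Finset.range n, ∑ j ∈ Finset.range m,
      (max (X i j ω - K') 0) ^ 2 ∂P ≤ n * η' ^ 2 := by
    rw [integral_finsetSum _ fun i _ => integrable_finsetSum _ fun j _ => hZ i j]
    calc _ ≤ ∑ _i ∈ Finset.range n, η' ^ 2 := by
          refine Finset.sum_le_sum fun i _ => ?_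
          rw [integral_finsetSum _ fun j _ => hZ i j]
          calc _ ≤ ∑ _j ∈ Finset.range m, η' ^ 2 / m :=
                Finset.sum_le_sum fun j _ => by rw [hZeq]; exact hK'
            _ = η' ^ 2 := by
                rw [Finset.sum_const, Finset.card_range, nsmul_eq_mul]; field_simp
      _ = n * η' ^ 2 := by rw [Finset.sum_const, Finset.card_range, nsmul_eq_mul]
  have hmain := integral_mono_of_nonneg (μ := P)
    (f := fun ω => optMakespan m n (fun i j => X i j ω))
    (g := fun ω => (n * ∫ ω, X 0 0 ω ∂P) +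
      Real.sqrt n * ((∑ j ∈ Finset.range m, Real.exp ((1 / Real.sqrt n) *
        ∑ i ∈ Finset.range n, (min (X i j ω) K - ∫ ω, min (X 0 0 ω) K ∂P))) / a + Real.log a - 1) +
      ((∑ j ∈ Finset.range m, (∑ i ∈ Finset.range n,
        (max (X i j ω - K) 0 - ∫ ω, max (X 0 0 ω - K) 0 ∂P)) ^ 2) / b + b) / 2 +
      (m : ℝ) ^ 2 * (K' + ((∑ i ∈ Finset.range n, ∑ j ∈ Finset.range m,
        (max (X i j ω - K') 0) ^ 2) / b' + b') / 2))
    ?_ (integral_four hI1 hI2 hI3).1 ?_
  · refine hmain.trans ?_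
    rw [(integral_four hI1 hI2 hI3).2]
    have e1 : ∫ ω, Real.sqrt n * ((∑ j ∈ Finset.range m, Real.exp ((1 / Real.sqrt n) *
        ∑ i ∈ Finset.range n, (min (X i j ω) K - ∫ ω, min (X 0 0 ω) K ∂P))) / a +
          Real.log a - 1) ∂P ≤ Real.sqrt n * (Real.log m + (K : ℝ) ^ 2 / 8) := by
      rw [integral_const_mul]
      apply mul_le_mul_of_nonneg_left _ hsq.le
      rw [(integral_lin hSE).2]
      have h1 := div_le_one_of_le₀ hexp1 hapos.le
      have h2 : Real.log a = Real.log m + (K : ℝ) ^ 2 / 8 := by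
        rw [ha, Real.log_mul hmpos.ne' (Real.exp_pos _).ne', Real.log_exp]
      linarith
    have e2 : ∫ ω, ((∑ j ∈ Finset.range m, (∑ i ∈ Finset.range n,
        (max (X i j ω - K) 0 - ∫ ω, max (X 0 0 ω - K) 0 ∂P)) ^ 2) / b + b) / 2 ∂P ≤
        η * Real.sqrt (m * n) := by
      rw [(integral_half hSB).2]
      have h1 : (∫ ω, ∑ j ∈ Finset.range m, (∑ i ∈ Finset.range n,
        (max (X i j ω - K) 0 - ∫ ω, max (X 0 0 ω - K) 0 ∂P)) ^ 2 ∂P) / b ≤ b := by
        rw [div_le_iff₀ hbpos]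
        refine hexp2.trans (le_of_eq ?_)
        rw [hb]
        have := Real.mul_self_sqrt (show (0 : ℝ) ≤ m * n by positivity)
        calc (m : ℝ) * n * η ^ 2 = (Real.sqrt (m * n) * Real.sqrt (m * n)) * η ^ 2 := by rw [this]
          _ = _ := by ring
      have h2 : η * Real.sqrt (m * n) = b := rfl
      linarith
    have e3 : ∫ ω, (m : ℝ) ^ 2 * (K' + ((∑ i ∈ Finset.range n, ∑ j ∈ Finset.range m,
        (max (X i j ω - K') 0) ^ 2) / b' + b') / 2) ∂P ≤
        (m : ℝ) ^ 2 * (K' + η' * Real.sqrt n) := by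
      rw [integral_const_mul]
      apply mul_le_mul_of_nonneg_left _ (by positivity)
      rw [(integral_constadd (integral_half hSZ).1).2, (integral_half hSZ).2]
      have h1 : (∫ ω, ∑ i ∈ Finset.range n, ∑ j ∈ Finset.range m,
        (max (X i j ω - K') 0) ^ 2 ∂P) / b' ≤ b' := by
        rw [div_le_iff₀ hb'pos]
        refine hexp3.trans (le_of_eq ?_)
        rw [hb']
        have := Real.mul_self_sqrt hnpos.le
        calc (n : ℝ) * η' ^ 2 = (Real.sqrt n * Real.sqrt n) * η' ^ 2 := by rw [this]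
          _ = _ := by ring
      have h2 : η' * Real.sqrt n = b' := rfl
      linarith
    linarith
  · filter_upwards [h.ae_nonneg] with ω hω
    exact optMakespan_nonneg hω
  · filter_upwards [h.ae_nonneg] with ω hω
    exact h.pointwise hm hn K K' hapos hbpos hb'pos hω

/-- For every `ε > 0` and every large `m`: `E[α*_{m,n}] ≤ ε √(mn)` for all large `n`. -/
theorem expError_small [IsProbabilityMeasure P] {ε : ℝ} (hε : 0 < ε) :
    ∃ m₀ : ℕ, ∀ m ≥ m₀, ∀ᶠ n : ℕ in atTop, expError P X m n ≤ ε * Real.sqrt (m * n) := by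
  obtain ⟨K, hK⟩ := h.exists_trunc (z := (ε / 4) ^ 2) (by positivity)
  have hlog : ∀ᶠ m : ℕ in atTop, Real.log m + (K : ℝ) ^ 2 / 8 ≤ (ε / 4) * Real.sqrt m := by
    have h1 : (fun x : ℝ => Real.log x) =o[atTop] (fun x : ℝ => x ^ (1 / 2 : ℝ)) :=
      isLittleO_log_rpow_atTop (by norm_num)
    have h2 : (fun _ : ℝ => (K : ℝ) ^ 2 / 8) =o[atTop] (fun x : ℝ => x ^ (1 / 2 : ℝ)) := by
      refine Asymptotics.isLittleO_const_left.2 (Or.inr ?_)
      exact (tendsto_norm_atTop_atTop.comp (tendsto_rpow_atTop (by norm_num)))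
    have h3 := (h1.add h2).bound (c := ε / 4) (by positivity)
    filter_upwards [tendsto_natCast_atTop_atTop.eventually h3] with m hm
    rw [Real.norm_eq_abs, Real.norm_eq_abs] at hm
    have h4 : (0 : ℝ) ≤ (m : ℝ) ^ (1 / 2 : ℝ) := Real.rpow_nonneg (Nat.cast_nonneg m) _
    rw [abs_of_nonneg h4, ← Real.sqrt_eq_rpow] at hm
    exact (le_abs_self _).trans hm
  obtain ⟨m₀, hm₀⟩ := eventually_atTop.1 hlog
  refine ⟨max m₀ 1, fun m hm => ?_⟩
  have hm0 : m₀ ≤ m := (le_max_left _ _).trans hm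
  have hm1 : 1 ≤ m := (le_max_right _ _).trans hm
  have hmpos : (0 : ℝ) < m := by exact_mod_cast hm1
  set η' : ℝ := ε / (4 * (m : ℝ) ^ 2) with hη'
  have hη'pos : 0 < η' := by positivity
  obtain ⟨K', hK'⟩ := h.exists_trunc (z := η' ^ 2 / m) (by positivity)
  have hn0 : ∀ᶠ n : ℕ in atTop, (m : ℝ) ^ 2 * K' ≤ (ε / 4) * Real.sqrt n := by
    have h1 : Tendsto (fun n : ℕ => (ε / 4) * Real.sqrt n) atTop atTop :=
      Tendsto.const_mul_atTop (by positivity)
        (Real.tendsto_sqrt_atTop.comp tendsto_natCast_atTop_atTop)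
    exact h1.eventually_ge_atTop _
  filter_upwards [hn0, eventually_ge_atTop 1] with n hn hn1
  have hmain := h.integral_opt_le hm1 hn1 K K' (η := ε / 4) (by positivity) hη'pos hK hK'
  have hnpos : (0 : ℝ) < n := by exact_mod_cast hn1
  unfold expError
  rw [integral_sub (h.integrable_opt m n) (integrable_const _)]
  simp only [integral_const, probReal_univ, smul_eq_mul, one_mul]
  have hτ : 0 ≤ ∫ ω, X 0 0 ω ∂P := integral_nonneg_of_ae h.nonneg
  have hs1 : Real.sqrt n ≤ Real.sqrt (m * n) := by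
    apply Real.sqrt_le_sqrt
    have : (1 : ℝ) ≤ m := by exact_mod_cast hm1
    nlinarith
  have hs2 : Real.sqrt (m * n) = Real.sqrt m * Real.sqrt n := Real.sqrt_mul hmpos.le _
  have h1 : Real.sqrt n * (Real.log m + (K : ℝ) ^ 2 / 8) ≤ (ε / 4) * Real.sqrt (m * n) := by
    rw [hs2]
    calc Real.sqrt n * (Real.log m + (K : ℝ) ^ 2 / 8) ≤ Real.sqrt n * ((ε / 4) * Real.sqrt m) :=
          mul_le_mul_of_nonneg_left (hm₀ m hm0) (Real.sqrt_nonneg _)
      _ = _ := by ring
  have h2 : (m : ℝ) ^ 2 * (K' + η' * Real.sqrt n) ≤ (ε / 2) * Real.sqrt (m * n) := by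
    have e1 : (m : ℝ) ^ 2 * (η' * Real.sqrt n) = (ε / 4) * Real.sqrt n := by
      rw [hη']; field_simp
    have e2 : (ε / 4) * Real.sqrt n ≤ (ε / 4) * Real.sqrt (m * n) := by gcongr
    rw [mul_add, e1]
    linarith
  have hm1' : (1 : ℝ) ≤ m := by exact_mod_cast hm1
  have h3 : (n : ℝ) * ∫ ω, X 0 0 ω ∂P ≤ ((n : ℝ) + m - 1) * ∫ ω, X 0 0 ω ∂P := by
    apply mul_le_mul_of_nonneg_right _ hτ
    linarith
  linarith

end IsTimes

end Pool.Agent.N581.Flow
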