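import Pool.Agent.N581.Flow.Shop

/-!
# Random permutation flow shops
-/

open MeasureTheory ProbabilityTheory Filter Topology

namespace Pool.Agent.N581.Flow

variable {Ω : Type*} [MeasurableSpace Ω] {P : Measure Ω} {X : ℕ → ℕ → Ω → ℝ}

/-- The operation times `X i j` are i.i.d. with a law on `[0, ∞)` with finite variance. -/
structure IsTimes (P : Measure Ω) (X : ℕ → ℕ → Ω → ℝ) : Prop where
  meas : ∀ i j, Measurable (X i j)
  indep : iIndepFun (fun p : ℕ × ℕ => X p.1 p.2) P
  ident : ∀ i j, IdentDistrib (X i j) (X 0 0) P P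
  nonneg : ∀ᵐ ω ∂P, 0 ≤ X 0 0 ω
  sq : MemLp (X 0 0) 2 P

lemma compl_le_sum {T : ℕ → ℕ → ℝ} (hT : ∀ i j, 0 ≤ T i j) : ∀ i j,
    compl T i j ≤ ∑ a ∈ Finset.range i, ∑ b ∈ Finset.range j, T a b := by
  intro i
  induction i with
  | zero => intro j; simp
  | succ i ih =>
    intro j
    induction j with
    | zero => simp
    | succ j ihj =>
      rw [compl_succ, Finset.sum_range_succ]
      have h1 := ih (j + 1)
      have h0 : 0 ≤ ∑ b ∈ Finset.range j, T i b := Finset.sum_nonneg fun b _ => hT i b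
      have h2 : compl T i (j + 1) + T i j ≤
          ∑ a ∈ Finset.range i, ∑ b ∈ Finset.range (j + 1), T a b +
            ∑ b ∈ Finset.range (j + 1), T i b := by
        rw [Finset.sum_range_succ (fun b => T i b) j]; linarith
      have h3 : compl T (i + 1) j + T i j ≤
          ∑ a ∈ Finset.range i, ∑ b ∈ Finset.range (j + 1), T a b +
            ∑ b ∈ Finset.range (j + 1), T i b := by
        rw [Finset.sum_range_succ] at ihj
        have h4 : ∑ a ∈ Finset.range i, ∑ b ∈ Finset.range j, T a b ≤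
            ∑ a ∈ Finset.range i, ∑ b ∈ Finset.range (j + 1), T a b := by
          refine Finset.sum_le_sum fun a _ => ?_
          rw [Finset.sum_range_succ]
          linarith [hT a j]
        rw [Finset.sum_range_succ (fun b => T i b) j]
        linarith
      rcases max_cases (compl T i (j + 1)) (compl T (i + 1) j) with ⟨h, _⟩ | ⟨h, _⟩ <;> rw [h] <;>
        assumption

lemma measurable_compl {T : Ω → ℕ → ℕ → ℝ} (hT : ∀ i j, Measurable fun ω => T ω i j) : ∀ i j,
    Measurable fun ω => compl (T ω) i j := by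
  intro i
  induction i with
  | zero => intro j; simp
  | succ i ih =>
    intro j
    induction j with
    | zero => simp
    | succ j ihj =>
      simp_rw [compl_succ]
      exact ((ih (j + 1)).max ihj).add (hT i j)

namespace IsTimes

variable (h : IsTimes P X)
include h

lemma ae_nonneg : ∀ᵐ ω ∂P, ∀ i j, 0 ≤ X i j ω := by
  rw [ae_all_iff]
  intro i
  rw [ae_all_iff]
  intro j
  exact (h.ident i j).symm.ae_mem_snd measurableSet_Ici h.nonneg

lemma memLp (i j : ℕ) : MemLp (X i j) 2 P := (h.ident i j).symm.memLp_snd h.sq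

lemma measurable_opt (m n : ℕ) :
    Measurable fun ω => optMakespan m n (fun i j => X i j ω) := by
  unfold optMakespan makespan
  refine Measurable.iInf fun π => ?_
  apply measurable_compl
  intro i j
  unfold permTimes
  split_ifs
  · exact h.meas _ _
  · exact measurable_const

lemma integrable_opt [IsProbabilityMeasure P] (m n : ℕ) :
    Integrable (fun ω => optMakespan m n (fun i j => X i j ω)) P := by
  have hint : Integrable (fun ω => ∑ i ∈ Finset.range n, ∑ j ∈ Finset.range m,
      (if hi : i < n then X i j ω else 0)) P := by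
    refine integrable_finsetSum _ fun i _ => integrable_finsetSum _ fun j _ => ?_
    split_ifs
    · exact (h.memLp i j).integrable one_le_two
    · exact integrable_zero _ _ _
  refine Integrable.mono' hint (h.measurable_opt m n).aestronglyMeasurable ?_
  filter_upwards [h.ae_nonneg] with ω hω
  rw [Real.norm_of_nonneg (optMakespan_nonneg hω)]
  have h1 : optMakespan m n (fun i j => X i j ω) ≤
      makespan m (fun i j => X i j ω) (1 : Equiv.Perm (Fin n)) :=
    ciInf_le (Set.finite_range _).bddBelow _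
  refine h1.trans ?_
  have h2 := compl_le_sum (T := permTimes (fun i j => X i j ω) (1 : Equiv.Perm (Fin n))) ?_ n m
  · refine h2.trans (le_of_eq ?_)
    refine Finset.sum_congr rfl fun i hi => Finset.sum_congr rfl fun j _ => ?_
    unfold permTimes
    rw [dif_pos (Finset.mem_range.1 hi), dif_pos (Finset.mem_range.1 hi)]
    rfl
  · intro i j
    unfold permTimes
    split_ifs
    · exact hω _ _
    · exact le_rfl

/-- truncated second moment. -/
lemma trunc_tendsto [IsProbabilityMeasure P] :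
    Tendsto (fun K : ℕ => ∫ ω, (max (X 0 0 ω - K) 0) ^ 2 ∂P) atTop (𝓝 0) := by
  suffices hT : Tendsto (fun K : ℕ => ∫ ω, (max (X 0 0 ω - K) 0) ^ 2 ∂P) atTop
      (𝓝 (∫ _ω, (0 : ℝ) ∂P)) by simpa using hT
  refine tendsto_integral_of_dominated_convergence (fun ω => (X 0 0 ω) ^ 2) ?_ ?_ ?_ ?_
  · intro K
    exact ((((h.meas 0 0).sub_const _).max measurable_const).pow_const 2).aestronglyMeasurable
  · exact h.sq.integrable_sq
  · intro K
    filter_upwards [h.nonneg] with ω hω
    rw [Real.norm_of_nonneg (by positivity)]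
    have hK : (0 : ℝ) ≤ K := Nat.cast_nonneg K
    have h1 : max (X 0 0 ω - K) 0 ≤ X 0 0 ω := max_le (by linarith) hω
    exact pow_le_pow_left₀ (le_max_right _ _) h1 2
  · refine Eventually.of_forall fun ω => ?_
    apply tendsto_const_nhds.congr'
    filter_upwards [eventually_ge_atTop ⌈X 0 0 ω⌉₊] with K hK
    have : X 0 0 ω ≤ K := (Nat.le_ceil _).trans (by exact_mod_cast hK)
    rw [max_eq_right (by linarith)]
    simp

lemma exists_trunc [IsProbabilityMeasure P] {z : ℝ} (hz : 0 < z) :
    ∃ K : ℕ, ∫ ω, (max (X 0 0 ω - K) 0) ^ 2 ∂P ≤ z := by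
  have := (h.trunc_tendsto.eventually_lt_const hz).exists
  obtain ⟨K, hK⟩ := this
  exact ⟨K, hK.le⟩

/-- exponential moments of the truncated centred sums. -/
lemma exp_moment [IsProbabilityMeasure P] (K n : ℕ) (hn : 1 ≤ n) (j : ℕ) :
    Integrable (fun ω => Real.exp ((1 / Real.sqrt n) *
      ∑ i ∈ Finset.range n, (min (X i j ω) K - ∫ ω, min (X 0 0 ω) K ∂P))) P ∧
    ∫ ω, Real.exp ((1 / Real.sqrt n) *
      ∑ i ∈ Finset.range n, (min (X i j ω) K - ∫ ω, min (X 0 0 ω) K ∂P)) ∂P ≤
      Real.exp ((K : ℝ) ^ 2 / 8) := by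
  have hnpos : (0 : ℝ) < n := by exact_mod_cast hn
  set c : NNReal := (‖(K : ℝ) - 0‖₊ / 2) ^ 2 with hc
  have hc' : (c : ℝ) = (K : ℝ) ^ 2 / 4 := by
    rw [hc]; push_cast
    rw [sub_zero, Real.norm_of_nonneg (Nat.cast_nonneg K)]
    ring
  have hmean : ∀ i, ∫ ω, min (X i j ω) K ∂P = ∫ ω, min (X 0 0 ω) K ∂P := by
    intro i
    exact ((h.ident i j).comp (u := fun x => min x (K : ℝ))
      (measurable_id.min measurable_const)).integral_eq
  have hsub : ∀ i ∈ Finset.range n, HasSubgaussianMGF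
      (fun ω => min (X i j ω) K - ∫ ω, min (X 0 0 ω) K ∂P) c P := by
    intro i _
    have h1 := hasSubgaussianMGF_of_mem_Icc (μ := P) (X := fun ω => min (X i j ω) (K : ℝ))
      (a := 0) (b := K) ((h.meas i j).min measurable_const).aemeasurable ?_
    · rw [hmean i] at h1
      exact h1
    · filter_upwards [h.ae_nonneg] with ω hω
      exact ⟨le_min (hω i j) (Nat.cast_nonneg K), min_le_right _ _⟩
  have hind : iIndepFun (fun i : ℕ => fun ω => min (X i j ω) K - ∫ ω, min (X 0 0 ω) K ∂P) P := by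
    have h1 : iIndepFun (fun i : ℕ => X i j) P :=
      h.indep.precomp (g := fun i : ℕ => (i, j)) (fun a b hab => (Prod.mk.inj hab).1)
    exact h1.comp (fun _ x => min x (K : ℝ) - ∫ ω, min (X 0 0 ω) K ∂P)
      (fun _ => (measurable_id.min measurable_const).sub_const _)
  have hsum := HasSubgaussianMGF.sum_of_iIndepFun hind (c := fun _ => c) hsub
  refine ⟨hsum.integrable_exp_mul _, ?_⟩
  refine (hsum.mgf_le (1 / Real.sqrt n)).trans (le_of_eq ?_)
  congr 1
  rw [Finset.sum_const, Finset.card_range]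
  push_cast
  rw [nsmul_eq_mul, hc', div_pow, Real.sq_sqrt hnpos.le]
  field_simp
  ring

/-- second moment of the centred sums of the remainders. -/
lemma sq_moment [IsProbabilityMeasure P] (K n : ℕ) (j : ℕ) :
    Integrable (fun ω => (∑ i ∈ Finset.range n,
      (max (X i j ω - K) 0 - ∫ ω, max (X 0 0 ω - K) 0 ∂P)) ^ 2) P ∧
    ∫ ω, (∑ i ∈ Finset.range n,
      (max (X i j ω - K) 0 - ∫ ω, max (X 0 0 ω - K) 0 ∂P)) ^ 2 ∂P ≤
      n * ∫ ω, (max (X 0 0 ω - K) 0) ^ 2 ∂P := by
  set u : ℝ → ℝ := fun x => max (x - K) 0 with hu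
  have hum : Measurable u := (measurable_id.sub_const _).max measurable_const
  set Z : ℕ → Ω → ℝ := fun i ω => u (X i j ω) with hZ
  have hid : ∀ i, IdentDistrib (Z i) (fun ω => u (X 0 0 ω)) P P := fun i =>
    (h.ident i j).comp hum
  have hmem : ∀ i, MemLp (Z i) 2 P := by
    intro i
    refine (h.memLp i j).mono (hum.comp (h.meas i j)).aestronglyMeasurable ?_
    filter_upwards [h.ae_nonneg] with ω hω
    have hK : (0 : ℝ) ≤ K := Nat.cast_nonneg K
    rw [Real.norm_of_nonneg (le_max_right _ _), Real.norm_of_nonneg (hω i j)]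
    exact max_le (by linarith) (hω i j)
  have hmean : ∀ i, ∫ ω, Z i ω ∂P = ∫ ω, u (X 0 0 ω) ∂P := fun i => (hid i).integral_eq
  have hind : ∀ i k, i ≠ k → IndepFun (Z i) (Z k) P := by
    intro i k hik
    have h1 := h.indep.indepFun (i := (i, j)) (j := (k, j)) (fun e => hik (Prod.mk.inj e).1)
    exact h1.comp hum hum
  have hvar := IndepFun.variance_sum (μ := P) (X := Z) (s := Finset.range n)
    (fun i _ => hmem i) (fun i _ k _ hik => hind i k hik)
  have hsumMem : MemLp (fun ω => ∑ i ∈ Finset.range n, (Z i ω - ∫ ω, u (X 0 0 ω) ∂P)) 2 P :=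
    memLp_finsetSum _ fun i _ => (hmem i).sub (memLp_const _)
  refine ⟨hsumMem.integrable_sq, ?_⟩
  have hmeasS : AEMeasurable (∑ i ∈ Finset.range n, Z i) P :=
    Finset.aemeasurable_sum _ fun i _ => (hum.comp (h.meas i j)).aemeasurable
  have h1 : ∫ ω, (∑ i ∈ Finset.range n, (Z i ω - ∫ ω, u (X 0 0 ω) ∂P)) ^ 2 ∂P =
      variance (∑ i ∈ Finset.range n, Z i) P := by
    rw [variance_eq_integral hmeasS]
    congr 1
    ext ω
    congr 1
    have h2 : ∫ ω, (∑ i ∈ Finset.range n, Z i) ω ∂P = ∑ i ∈ Finset.range n, ∫ ω, u (X 0 0 ω) ∂P := by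
      simp_rw [Finset.sum_apply]
      rw [integral_finsetSum _ fun i _ => (hmem i).integrable one_le_two]
      exact Finset.sum_congr rfl fun i _ => hmean i
    rw [h2, Finset.sum_sub_distrib, Finset.sum_apply]
  show ∫ ω, (∑ i ∈ Finset.range n, (Z i ω - ∫ ω, u (X 0 0 ω) ∂P)) ^ 2 ∂P ≤ _
  rw [h1, hvar]
  calc ∑ i ∈ Finset.range n, variance (Z i) P
      ≤ ∑ _i ∈ Finset.range n, ∫ ω, (u (X 0 0 ω)) ^ 2 ∂P := by
        refine Finset.sum_le_sum fun i _ => ?_
        rw [(hid i).variance_eq]
        exact variance_le_expectation_sq (hum.comp (h.meas 0 0)).aestronglyMeasurable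
    _ = _ := by rw [Finset.sum_const, Finset.card_range, nsmul_eq_mul]

end IsTimes

end Pool.Agent.N581.Flow
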