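import Pool.Agent.N581.Flow.Steinitz

/-!
# The permutation flow shop
-/

namespace Pool.Agent.N581.Flow

/-- Completion times: `compl T i j` is the completion time on machine `j` of the `i`-th task in
the processing order (`compl T 0 j = compl T i 0 = 0`), where `T i j` is the time of the
operation on machine `j + 1` of the task in position `i + 1`. -/
def compl (T : ℕ → ℕ → ℝ) : ℕ → ℕ → ℝ
  | 0, _ => 0
  | _ + 1, 0 => 0
  | i + 1, j + 1 => max (compl T i (j + 1)) (compl T (i + 1) j) + T i j

/-- The operation times in the order given by the permutation `π` of the `n` tasks. -/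
def permTimes {n : ℕ} (T : ℕ → ℕ → ℝ) (π : Equiv.Perm (Fin n)) : ℕ → ℕ → ℝ :=
  fun i j => if h : i < n then T (π ⟨i, h⟩) j else 0

/-- The makespan of the schedule `π` for `n` tasks on `m` machines. -/
def makespan {n : ℕ} (m : ℕ) (T : ℕ → ℕ → ℝ) (π : Equiv.Perm (Fin n)) : ℝ :=
  compl (permTimes T π) n m

/-- The optimal makespan `L*_{m,n}`. -/
noncomputable def optMakespan (m n : ℕ) (T : ℕ → ℕ → ℝ) : ℝ :=
  ⨅ π : Equiv.Perm (Fin n), makespan m T π

@[simp] lemma compl_zero_left (T : ℕ → ℕ → ℝ) (j : ℕ) : compl T 0 j = 0 := by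
  cases j <;> rw [compl]

@[simp] lemma compl_zero_right (T : ℕ → ℕ → ℝ) (i : ℕ) : compl T i 0 = 0 := by
  cases i <;> rw [compl]

lemma compl_succ (T : ℕ → ℕ → ℝ) (i j : ℕ) :
    compl T (i + 1) (j + 1) = max (compl T i (j + 1)) (compl T (i + 1) j) + T i j := by rw [compl]

lemma compl_nonneg {T : ℕ → ℕ → ℝ} (hT : ∀ i j, 0 ≤ T i j) : ∀ i j, 0 ≤ compl T i j := by
  intro i
  induction i with
  | zero => intro j; simp
  | succ i ih =>
    intro j
    induction j with
    | zero => simp
    | succ j _ =>
      rw [compl_succ]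
      have := ih (j + 1)
      have h2 := hT i j
      have := le_max_left (compl T i (j + 1)) (compl T (i + 1) j)
      linarith

lemma compl_mono {T T' : ℕ → ℕ → ℝ} {n m : ℕ} (h : ∀ i < n, ∀ j < m, T i j ≤ T' i j) :
    ∀ i ≤ n, ∀ j ≤ m, compl T i j ≤ compl T' i j := by
  intro i
  induction i with
  | zero => intro _ j _; simp
  | succ i ih =>
    intro hi j
    induction j with
    | zero => intro _; simp
    | succ j ihj =>
      intro hj
      rw [compl_succ, compl_succ]
      have h1 := ih (by omega) (j + 1) hj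
      have h2 := ihj (by omega)
      have h3 := h i (by omega) j (by omega)
      exact add_le_add (max_le_max h1 h2) h3

/-- If the prefix loads grow by at most `D` from a machine to the preceding one and all times
are at most `M`, then the completion times are controlled by the prefix loads. -/
lemma compl_le {T : ℕ → ℕ → ℝ} {n m : ℕ} {D M : ℝ} (hD : 0 ≤ D) (hM : 0 ≤ M)
    (hT0 : ∀ i < n, ∀ j < m, 0 ≤ T i j) (hTM : ∀ i < n, ∀ j < m, T i j ≤ M)
    (hpre : ∀ k ≤ n, ∀ j, j + 1 < m →
      ∑ i ∈ Finset.range k, T i j ≤ ∑ i ∈ Finset.range k, T i (j + 1) + D) :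
    ∀ k ≤ n, ∀ j < m, compl T k (j + 1) ≤ ∑ i ∈ Finset.range k, T i j + j * (D + M) := by
  intro k
  induction k with
  | zero => intro _ j _; simp; positivity
  | succ k ih =>
    intro hk j
    induction j with
    | zero =>
      intro hj
      rw [compl_succ, compl_zero_right, Finset.sum_range_succ]
      have h1 := ih (by omega) 0 hj
      have h2 : 0 ≤ ∑ i ∈ Finset.range k, T i 0 :=
        Finset.sum_nonneg fun i hi => hT0 i (by have := Finset.mem_range.1 hi; omega) 0 hj
      simp only [Nat.cast_zero, zero_mul, add_zero] at h1 ⊢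
      have : max (compl T k (0 + 1)) 0 ≤ ∑ i ∈ Finset.range k, T i 0 := max_le h1 h2
      linarith
    | succ j ihj =>
      intro hj
      rw [compl_succ]
      have h1 := ih (by omega) (j + 1) hj
      have h2 := ihj (by omega)
      have h3 := hpre (k + 1) hk j hj
      have h4 := hTM k (by omega) (j + 1) hj
      have hmax : max (compl T k (j + 1 + 1)) (compl T (k + 1) (j + 1)) ≤
          ∑ i ∈ Finset.range (k + 1), T i (j + 1) - T k (j + 1) + (j + 1 : ℕ) * (D + M) := by
        apply max_le
        · rw [Finset.sum_range_succ]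
          linarith
        · push_cast
          linarith
      linarith

/-- Deterministic bound: some order has makespan at most `L + m² M`, where `L` bounds all machine
loads (and `L ≤ n M`) and `M` bounds all operation times. -/
theorem exists_makespan_le {n m : ℕ} (hm : 1 ≤ m) {T : ℕ → ℕ → ℝ} {L M : ℝ}
    (hT0 : ∀ i < n, ∀ j < m, 0 ≤ T i j) (hTM : ∀ i < n, ∀ j < m, T i j ≤ M) (hM : 0 ≤ M)
    (hL : ∀ j < m, ∑ i ∈ Finset.range n, T i j ≤ L) (hLM : L ≤ n * M) :
    ∃ π : Equiv.Perm (Fin n), makespan m T π ≤ L + (m : ℝ) ^ 2 * M := by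
  -- padded times
  set load : ℕ → ℝ := fun j => ∑ i ∈ Finset.range n, T i j with hload
  set θ : ℕ → ℝ := fun j => if load j < n * M then (L - load j) / (n * M - load j) else 0 with hθ
  have hθ0 : ∀ j < m, 0 ≤ θ j := by
    intro j hj
    simp only [hθ]
    split_ifs with h
    · exact div_nonneg (by linarith [hL j hj]) (by linarith)
    · exact le_rfl
  have hθ1 : ∀ j < m, θ j ≤ 1 := by
    intro j hj
    simp only [hθ]
    split_ifs with h
    · rw [div_le_one (by linarith)]; linarith
    · exact zero_le_one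
  set T' : ℕ → ℕ → ℝ := fun i j => T i j + θ j * (M - T i j) with hT'
  have hT'le : ∀ i < n, ∀ j < m, T i j ≤ T' i j := by
    intro i hi j hj
    simp only [hT']
    have := mul_nonneg (hθ0 j hj) (sub_nonneg.2 (hTM i hi j hj))
    linarith
  have hT'M : ∀ i < n, ∀ j < m, T' i j ≤ M := by
    intro i hi j hj
    simp only [hT']
    have h1 := hTM i hi j hj
    have h2 := hθ1 j hj
    nlinarith
  have hT'0 : ∀ i < n, ∀ j < m, 0 ≤ T' i j := fun i hi j hj =>
    (hT0 i hi j hj).trans (hT'le i hi j hj)
  have hload' : ∀ j < m, ∑ i ∈ Finset.range n, T' i j = L := by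
    intro j hj
    simp only [hT']
    rw [Finset.sum_add_distrib, ← Finset.mul_sum, Finset.sum_sub_distrib, Finset.sum_const,
      Finset.card_range, nsmul_eq_mul]
    have h1 : ∑ i ∈ Finset.range n, T i j = load j := rfl
    rw [h1]
    simp only [hθ]
    split_ifs with h
    · have : (n : ℝ) * M - load j ≠ 0 := by linarith
      field_simp
      ring
    · have h2 : load j ≤ L := hL j hj
      linarith
  -- difference vectors
  set v : Fin n → Fin (m - 1) → ℝ := fun i j => T' i j - T' i (j + 1) with hv
  have hvM : ∀ i j, |v i j| ≤ M := by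
    intro i j
    have hj : (j : ℕ) + 1 < m := by have := j.2; omega
    have a1 := hT'0 i i.2 j (by omega)
    have a2 := hT'M i i.2 j (by omega)
    have b1 := hT'0 i i.2 (j + 1) hj
    have b2 := hT'M i i.2 (j + 1) hj
    rw [abs_le]
    constructor
    · show -M ≤ T' i j - T' i (j + 1); linarith
    · show T' i j - T' i (j + 1) ≤ M; linarith
  have hvsum : ∀ j, ∑ i, v i j = 0 := by
    intro j
    have hj : (j : ℕ) + 1 < m := by have := j.2; omega
    simp only [hv]
    rw [Finset.sum_sub_distrib, Fin.sum_univ_eq_sum_range (fun i => T' i j),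
      Fin.sum_univ_eq_sum_range (fun i => T' i (j + 1)), hload' j (by omega), hload' _ hj, sub_self]
  obtain ⟨l, hnd, hall, hpre⟩ := steinitz v hM hvM hvsum
  have hlen : l.length = n := by
    have h1 : l.toFinset = Finset.univ := by
      ext i; simp [hall i]
    have := List.toFinset_card_of_nodup hnd
    rw [h1, Finset.card_univ, Fintype.card_fin] at this
    exact this.symm
  set π : Equiv.Perm (Fin n) :=
    (finCongr hlen.symm).trans (List.Nodup.getEquivOfForallMemList l hnd hall) with hπ
  have hπi : ∀ (i : ℕ) (h : i < n), π ⟨i, h⟩ = l[i]'(by omega) := by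
    intro i h
    simp [hπ]
  refine ⟨π, ?_⟩
  have hmono : makespan m T π ≤ compl (permTimes T' π) n m := by
    unfold makespan
    refine compl_mono (n := n) (m := m) ?_ n le_rfl m le_rfl
    intro i hi j hj
    unfold permTimes
    rw [dif_pos hi, dif_pos hi]
    exact hT'le _ (Fin.is_lt _) j hj
  refine hmono.trans ?_
  have hsumk : ∀ k ≤ n, ∀ j : Fin (m - 1), ∑ i ∈ Finset.range k, permTimes T' π i j -
      ∑ i ∈ Finset.range k, permTimes T' π i (j + 1) = ((l.take k).map (fun i => v i j)).sum := by
    intro k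
    induction k with
    | zero => intro _ j; simp
    | succ k ih =>
      intro hk j
      have h1 := ih (by omega) j
      rw [Finset.sum_range_succ, Finset.sum_range_succ]
      rw [List.take_add_one, List.map_append, List.sum_append, ← h1]
      have hk' : k < l.length := by omega
      rw [List.getElem?_eq_getElem hk']
      simp only [Option.toList_some, List.map_cons, List.map_nil, List.sum_cons, List.sum_nil,
        add_zero]
      have h2 : permTimes T' π k j = T' (l[k]) j := by
        unfold permTimes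
        rw [dif_pos (by omega), hπi]
      have h3 : permTimes T' π k (j + 1) = T' (l[k]) (j + 1) := by
        unfold permTimes
        rw [dif_pos (by omega), hπi]
      rw [h2, h3]
      simp only [hv]
      ring
  have hD : (0 : ℝ) ≤ (m - 1 : ℕ) * M := by positivity
  have hmain := compl_le (T := permTimes T' π) (n := n) (m := m) (D := ((m - 1 : ℕ) : ℝ) * M) (M := M)
    hD hM ?_ ?_ ?_ n le_rfl (m - 1) (by omega)
  · have e : m - 1 + 1 = m := by omega
    rw [e] at hmain
    refine hmain.trans ?_
    have hsumL : ∑ i ∈ Finset.range n, permTimes T' π i (m - 1) = L := by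
      rw [← hload' (m - 1) (by omega), ← Fin.sum_univ_eq_sum_range (fun i => T' i (m - 1)),
        ← Fin.sum_univ_eq_sum_range (fun i => permTimes T' π i (m - 1))]
      rw [← Equiv.sum_comp π (fun i : Fin n => T' i (m - 1))]
      refine Finset.sum_congr rfl fun i _ => ?_
      unfold permTimes
      rw [dif_pos i.2]
    rw [hsumL]
    have h1 : ((m - 1 : ℕ) : ℝ) = (m : ℝ) - 1 := by
      rw [Nat.cast_sub hm]; simp
    rw [h1]
    have hm' : (1 : ℝ) ≤ m := by exact_mod_cast hm
    have : ((m : ℝ) - 1) * (((m : ℝ) - 1) * M + M) = ((m : ℝ) - 1) * m * M := by ring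
    rw [this]
    have : ((m : ℝ) - 1) * m * M ≤ (m : ℝ) ^ 2 * M := by
      apply mul_le_mul_of_nonneg_right _ hM
      nlinarith
    linarith
  · intro i hi j hj
    unfold permTimes
    rw [dif_pos hi]
    exact hT'0 _ (Fin.is_lt _) j hj
  · intro i hi j hj
    unfold permTimes
    rw [dif_pos hi]
    exact hT'M _ (Fin.is_lt _) j hj
  · intro k hk j hj
    have h1 := hsumk k hk ⟨j, by omega⟩
    have h2 := hpre k ⟨j, by omega⟩
    simp only at h1
    rw [← h1] at h2
    have := (abs_le.1 h2).2
    linarith

/-- the optimal makespan is at most `L + m² M`. -/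
theorem optMakespan_le {n m : ℕ} (hm : 1 ≤ m) {T : ℕ → ℕ → ℝ} {L M : ℝ}
    (hT0 : ∀ i < n, ∀ j < m, 0 ≤ T i j) (hTM : ∀ i < n, ∀ j < m, T i j ≤ M) (hM : 0 ≤ M)
    (hL : ∀ j < m, ∑ i ∈ Finset.range n, T i j ≤ L) :
    optMakespan m n T ≤ L + (m : ℝ) ^ 2 * M := by
  -- the load bound may be lowered to `n M`
  set L' := min L (n * M) with hL'
  have h1 : ∀ j < m, ∑ i ∈ Finset.range n, T i j ≤ L' := by
    intro j hj
    refine le_min (hL j hj) ?_
    calc ∑ i ∈ Finset.range n, T i j ≤ ∑ _i ∈ Finset.range n, M :=
          Finset.sum_le_sum fun i hi => hTM i (Finset.mem_range.1 hi) j hj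
      _ = n * M := by rw [Finset.sum_const, Finset.card_range, nsmul_eq_mul]
  obtain ⟨π, hπ⟩ := exists_makespan_le hm hT0 hTM hM h1 (min_le_right _ _)
  have h2 : optMakespan m n T ≤ makespan m T π :=
    ciInf_le (Set.finite_range _).bddBelow π
  have h3 : L' ≤ L := min_le_left _ _
  linarith

lemma optMakespan_nonneg {n m : ℕ} {T : ℕ → ℕ → ℝ} (hT0 : ∀ i j, 0 ≤ T i j) :
    0 ≤ optMakespan m n T := by
  apply le_ciInf
  intro π
  unfold makespan
  apply compl_nonneg
  intro i j
  unfold permTimes
  split_ifs
  · exact hT0 _ _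
  · exact le_rfl

end Pool.Agent.N581.Flow
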