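import Mathlib

/-!
# The Steinitz rearrangement lemma (Grinberg–Sevastyanov proof)
-/

namespace Pool.Agent.N581.Flow

variable {ι : Type*} [DecidableEq ι] {d : ℕ}

/-- Feasible weights. -/
def Feas (v : ι → Fin d → ℝ) (S : Finset ι) (c : ℝ) (μ : ι → ℝ) : Prop :=
  (∀ i ∈ S, 0 ≤ μ i ∧ μ i ≤ 1) ∧ (∀ j, ∑ i ∈ S, μ i * v i j = 0) ∧ ∑ i ∈ S, μ i = c

lemma exists_zero (v : ι → Fin d → ℝ) (S : Finset ι) : ∀ N : ℕ, ∀ μ : ι → ℝ,
    Feas v S ((S.card : ℝ) - 1 - d) μ → (S.filter fun i => μ i < 1).card ≤ N →
    ∃ μ', Feas v S ((S.card : ℝ) - 1 - d) μ' ∧ ∃ i ∈ S, μ' i = 0 := by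
  intro N
  induction N with
  | zero =>
    intro μ hμ hc
    by_cases hz : ∃ i ∈ S, μ i = 0
    · exact ⟨μ, hμ, hz⟩
    exfalso
    have hF : S.filter (fun i => μ i < 1) = ∅ := Finset.card_eq_zero.1 (Nat.le_zero.1 hc)
    have h1 : ∀ i ∈ S, μ i = 1 := by
      intro i hi
      have : i ∉ S.filter (fun i => μ i < 1) := by rw [hF]; simp
      rw [Finset.mem_filter, not_and] at this
      exact le_antisymm (hμ.1 i hi).2 (not_lt.1 (this hi))
    have h2 := hμ.2.2
    rw [Finset.sum_congr rfl h1, Finset.sum_const, nsmul_eq_mul, mul_one] at h2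
    have : (0 : ℝ) ≤ d := Nat.cast_nonneg d
    linarith
  | succ N ih =>
    intro μ hμ hc
    by_cases hz : ∃ i ∈ S, μ i = 0
    · exact ⟨μ, hμ, hz⟩
    push Not at hz
    have hpos : ∀ i ∈ S, 0 < μ i := fun i hi => lt_of_le_of_ne (hμ.1 i hi).1 (Ne.symm (hz i hi))
    set F := S.filter (fun i => μ i < 1) with hF
    have hFS : F ⊆ S := Finset.filter_subset _ _
    have hsumF : ∑ i ∈ F, μ i = (F.card : ℝ) - 1 - d := by
      have h1 : ∑ i ∈ S, μ i = ∑ i ∈ F, μ i + ∑ i ∈ S.filter (fun i => ¬ μ i < 1), μ i :=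
        (Finset.sum_filter_add_sum_filter_not S _ _).symm
      have h2 : ∑ i ∈ S.filter (fun i => ¬ μ i < 1), μ i =
          ((S.filter (fun i => ¬ μ i < 1)).card : ℝ) := by
        rw [Finset.sum_congr rfl (g := fun _ => (1 : ℝ)), Finset.sum_const, nsmul_eq_mul, mul_one]
        intro i hi
        rw [Finset.mem_filter] at hi
        exact le_antisymm (hμ.1 i hi.1).2 (not_lt.1 hi.2)
      have h3 : (F.card : ℝ) + ((S.filter (fun i => ¬ μ i < 1)).card : ℝ) = S.card := by
        exact_mod_cast Finset.card_filter_add_card_filter_not (s := S) (fun i => μ i < 1)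
      have h4 := hμ.2.2
      rw [h1, h2] at h4
      linarith
    have hcardF : d + 2 ≤ F.card := by
      by_contra hlt
      have h1 : (F.card : ℝ) ≤ d + 1 := by
        have : F.card ≤ d + 1 := by omega
        exact_mod_cast this
      have h2 : ∑ i ∈ F, μ i ≤ 0 := by rw [hsumF]; linarith
      rcases F.eq_empty_or_nonempty with hE | hne
      · rw [hE] at hsumF
        simp at hsumF
        have : (0 : ℝ) ≤ d := Nat.cast_nonneg d
        linarith
      · have : 0 < ∑ i ∈ F, μ i := Finset.sum_pos (fun i hi => hpos i (hFS hi)) hne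
        linarith
    -- linear dependence
    have hnli : ¬ LinearIndependent ℝ (fun i : F => ((v i, (1 : ℝ)) : (Fin d → ℝ) × ℝ)) := by
      intro hli
      have := hli.fintype_card_le_finrank
      rw [Module.finrank_prod, Module.finrank_fin_fun, Module.finrank_self,
        Fintype.card_coe] at this
      omega
    rw [Fintype.not_linearIndependent_iff] at hnli
    obtain ⟨g, hg, i1, hi1⟩ := hnli
    set c : ι → ℝ := fun i => if h : i ∈ F then g ⟨i, h⟩ else 0 with hcdef
    have hcF : ∀ i : F, c i = g i := fun i => by simp [hcdef]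
    have hcS : ∀ i, i ∉ F → c i = 0 := fun i hi => by simp [hcdef, hi]
    have hsum_c : ∀ f : ι → ℝ, ∑ i ∈ S, c i * f i = ∑ i : F, g i * f i := by
      intro f
      rw [← Finset.sum_subset hFS]
      · rw [← Finset.sum_coe_sort F]
        exact Finset.sum_congr rfl fun i _ => by rw [hcF]
      · intro i _ hi; rw [hcS i hi, zero_mul]
    have hc1 : ∀ j, ∑ i ∈ S, c i * v i j = 0 := by
      intro j
      rw [hsum_c]
      have := congrArg (fun p : (Fin d → ℝ) × ℝ => p.1 j) hg
      simpa [Prod.fst_sum, Finset.sum_apply] using this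
    have hc2 : ∑ i ∈ S, c i = 0 := by
      have h1 := hsum_c (fun _ => 1)
      simp only [mul_one] at h1
      rw [h1]
      have := congrArg (fun p : (Fin d → ℝ) × ℝ => p.2) hg
      simpa [Prod.snd_sum] using this
    -- choose the first coordinate that hits the boundary
    set r : ι → ℝ := fun i => if 0 < c i then (1 - μ i) / c i else μ i / (-c i) with hr
    have hne : (F.filter fun i => c i ≠ 0).Nonempty :=
      ⟨i1, Finset.mem_filter.2 ⟨i1.2, by rw [hcF]; exact hi1⟩⟩
    obtain ⟨i0, hi0, hmin⟩ := Finset.exists_min_image _ r hne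
    rw [Finset.mem_filter] at hi0
    have hi0S := hFS hi0.1
    have hlt1 : ∀ i ∈ F, μ i < 1 := fun i hi => (Finset.mem_filter.1 hi).2
    have ht : 0 < r i0 := by
      simp only [hr]
      split_ifs with h
      · exact div_pos (by linarith [hlt1 i0 hi0.1]) h
      · have : 0 < -c i0 := by
          have := lt_of_le_of_ne (not_lt.1 h) hi0.2
          linarith
        exact div_pos (hpos i0 hi0S) this
    set t := r i0 with htdef
    set μ' : ι → ℝ := fun i => μ i + t * c i with hμ'
    have hfeas : Feas v S ((S.card : ℝ) - 1 - d) μ' := by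
      refine ⟨?_, ?_, ?_⟩
      · intro i hi
        by_cases hci : c i = 0
        · simp only [hμ', hci, mul_zero, add_zero]; exact hμ.1 i hi
        · have hiF : i ∈ F := by
            by_contra h; exact hci (hcS i h)
          have hm := hmin i (Finset.mem_filter.2 ⟨hiF, hci⟩)
          rcases lt_or_gt_of_ne hci with hneg | hposc
          · have hri : r i = μ i / (-c i) := by simp only [hr]; rw [if_neg (not_lt.2 hneg.le)]
            rw [hri, le_div_iff₀ (by linarith)] at hm
            have := hpos i hi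
            have := hlt1 i hiF
            simp only [hμ']
            constructor
            · linarith
            · nlinarith
          · have hri : r i = (1 - μ i) / c i := by simp only [hr]; rw [if_pos hposc]
            rw [hri, le_div_iff₀ hposc] at hm
            have := hpos i hi
            have := hlt1 i hiF
            simp only [hμ']
            constructor
            · nlinarith
            · linarith
      · intro j
        have : ∀ i, μ' i * v i j = μ i * v i j + t * (c i * v i j) := fun i => by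
          simp only [hμ']; ring
        simp_rw [this]
        rw [Finset.sum_add_distrib, ← Finset.mul_sum, hμ.2.1 j, hc1 j, mul_zero, add_zero]
      · simp only [hμ']
        rw [Finset.sum_add_distrib, ← Finset.mul_sum, hc2, mul_zero, add_zero, hμ.2.2]
    by_cases hc0 : 0 < c i0
    · -- coordinate becomes one
      have h1 : μ' i0 = 1 := by
        have : t = (1 - μ i0) / c i0 := by rw [htdef]; simp only [hr]; rw [if_pos hc0]
        simp only [hμ']
        rw [this]; field_simp; ring
      refine ih μ' hfeas ?_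
      have hsub : S.filter (fun i => μ' i < 1) ⊆ F.erase i0 := by
        intro i hi
        rw [Finset.mem_filter] at hi
        rw [Finset.mem_erase]
        constructor
        · rintro rfl; linarith [hi.2]
        · by_contra hiF
          have h2 : μ' i = μ i := by simp only [hμ', hcS i hiF, mul_zero, add_zero]
          rw [h2] at hi
          exact hiF (Finset.mem_filter.2 hi)
      have h3 := Finset.card_le_card hsub
      rw [Finset.card_erase_of_mem hi0.1] at h3
      omega
    · refine ⟨μ', hfeas, i0, hi0S, ?_⟩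
      have hneg : c i0 < 0 := lt_of_le_of_ne (not_lt.1 hc0) hi0.2
      have : t = μ i0 / (-c i0) := by rw [htdef]; simp only [hr]; rw [if_neg hc0]
      have hne0 : c i0 ≠ 0 := hneg.ne
      simp only [hμ']
      rw [this]
      field_simp
      ring

lemma feas_step (v : ι → Fin d → ℝ) {S : Finset ι} {k : ℕ} (hk : S.card = k + 1) (hd : d ≤ k)
    {μ : ι → ℝ} (hμ : Feas v S ((k : ℝ) + 1 - d) μ) :
    ∃ i ∈ S, ∃ μ', Feas v (S.erase i) ((k : ℝ) - d) μ' := by
  have hdk : (d : ℝ) ≤ k := by exact_mod_cast hd
  have hpos : (0 : ℝ) < (k : ℝ) + 1 - d := by linarith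
  set q : ℝ := ((k : ℝ) - d) / ((k : ℝ) + 1 - d) with hq
  have hq0 : 0 ≤ q := div_nonneg (by linarith) hpos.le
  have hq1 : q ≤ 1 := by rw [hq, div_le_one hpos]; linarith
  have hcard : (S.card : ℝ) - 1 - d = k - d := by rw [hk]; push_cast; ring
  have h1 : Feas v S ((S.card : ℝ) - 1 - d) (fun i => q * μ i) := by
    refine ⟨?_, ?_, ?_⟩
    · intro i hi
      have := hμ.1 i hi
      constructor
      · exact mul_nonneg hq0 this.1
      · nlinarith
    · intro j
      have : ∀ i, q * μ i * v i j = q * (μ i * v i j) := fun i => by ring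
      simp_rw [this]
      rw [← Finset.mul_sum, hμ.2.1 j, mul_zero]
    · rw [← Finset.mul_sum, hμ.2.2, hcard, hq]
      field_simp
  obtain ⟨μ', hμ', i, hi, hi0⟩ := exists_zero v S _ _ h1 le_rfl
  refine ⟨i, hi, μ', ?_, ?_, ?_⟩
  · intro j hj; exact hμ'.1 j (Finset.mem_of_mem_erase hj)
  · intro j
    have := hμ'.2.1 j
    rw [← Finset.sum_erase_add _ _ hi, hi0, zero_mul, add_zero] at this
    exact this
  · have := hμ'.2.2
    rw [← Finset.sum_erase_add _ _ hi, hi0, add_zero, hcard] at this
    exact this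

omit [DecidableEq ι] in
lemma feas_good {v : ι → Fin d → ℝ} {M : ℝ} (hv : ∀ i j, |v i j| ≤ M) {S : Finset ι}
    {μ : ι → ℝ} (hμ : Feas v S ((S.card : ℝ) - d) μ) (j : Fin d) :
    |∑ i ∈ S, v i j| ≤ d * M := by
  have h1 : ∑ i ∈ S, v i j = ∑ i ∈ S, (1 - μ i) * v i j := by
    have : ∀ i, (1 - μ i) * v i j = v i j - μ i * v i j := fun i => by ring
    simp_rw [this]
    rw [Finset.sum_sub_distrib, hμ.2.1 j, sub_zero]
  rw [h1]
  calc |∑ i ∈ S, (1 - μ i) * v i j| ≤ ∑ i ∈ S, |(1 - μ i) * v i j| := Finset.abs_sum_le_sum_abs _ _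
    _ ≤ ∑ i ∈ S, (1 - μ i) * M := by
        refine Finset.sum_le_sum fun i hi => ?_
        have := hμ.1 i hi
        rw [abs_mul, abs_of_nonneg (by linarith : 0 ≤ 1 - μ i)]
        exact mul_le_mul_of_nonneg_left (hv i j) (by linarith)
    _ = d * M := by
        rw [← Finset.sum_mul, Finset.sum_sub_distrib, hμ.2.2, Finset.sum_const, nsmul_eq_mul,
          mul_one]
        ring

lemma chain {v : ι → Fin d → ℝ} {M : ℝ} (hM : 0 ≤ M) (hv : ∀ i j, |v i j| ≤ M) : ∀ N : ℕ,
    ∀ S : Finset ι, S.card = N → (N ≤ d ∨ ∃ μ, Feas v S ((N : ℝ) - d) μ) →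
    ∃ l : List ι, l.Nodup ∧ l.toFinset = S ∧
      ∀ k j, |((l.take k).map (fun i => v i j)).sum| ≤ d * M := by
  intro N
  induction N with
  | zero =>
    intro S hS _
    refine ⟨[], List.nodup_nil, ?_, ?_⟩
    · rw [Finset.card_eq_zero.1 hS]; rfl
    · intro k j; simp; positivity
  | succ N ih =>
    intro S hS hor
    have hgood : ∀ j, |∑ i ∈ S, v i j| ≤ d * M := by
      intro j
      rcases hor with hle | ⟨μ, hμ⟩
      · calc |∑ i ∈ S, v i j| ≤ ∑ i ∈ S, |v i j| := Finset.abs_sum_le_sum_abs _ _
          _ ≤ ∑ _i ∈ S, M := Finset.sum_le_sum fun i _ => hv i j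
          _ = (S.card : ℝ) * M := by rw [Finset.sum_const, nsmul_eq_mul]
          _ ≤ d * M := by
              apply mul_le_mul_of_nonneg_right _ hM
              rw [hS]; exact_mod_cast hle
      · refine feas_good hv (μ := μ) ?_ j
        rw [hS]; exact hμ
    have hex : ∃ i ∈ S, N ≤ d ∨ ∃ μ', Feas v (S.erase i) ((N : ℝ) - d) μ' := by
      rcases Nat.lt_or_ge N d with hlt | hge
      · obtain ⟨i, hi⟩ : S.Nonempty := Finset.card_pos.1 (by omega)
        exact ⟨i, hi, Or.inl hlt.le⟩
      · rcases hor with hle | ⟨μ, hμ⟩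
        · omega
        · push_cast at hμ
          obtain ⟨i, hi, μ', hμ'⟩ := feas_step v hS hge hμ
          exact ⟨i, hi, Or.inr ⟨μ', hμ'⟩⟩
    obtain ⟨i, hi, hor'⟩ := hex
    obtain ⟨l, hnd, hl, hpre⟩ := ih (S.erase i) (by rw [Finset.card_erase_of_mem hi, hS]; rfl) hor'
    have hil : i ∉ l := by
      intro h
      have : i ∈ l.toFinset := List.mem_toFinset.2 h
      rw [hl] at this
      exact Finset.notMem_erase i S this
    refine ⟨l ++ [i], ?_, ?_, ?_⟩
    · rw [List.nodup_append]
      refine ⟨hnd, List.nodup_singleton i, ?_⟩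
      intro a ha b hb
      rw [List.mem_singleton] at hb
      subst hb
      rintro rfl
      exact hil ha
    · rw [List.toFinset_append, hl]
      ext a
      simp only [Finset.mem_union, Finset.mem_erase, List.mem_toFinset, List.mem_singleton]
      constructor
      · rintro (⟨_, h⟩ | rfl)
        · exact h
        · exact hi
      · intro h
        by_cases ha : a = i
        · exact Or.inr ha
        · exact Or.inl ⟨ha, h⟩
    · intro k j
      by_cases hk : k ≤ l.length
      · rw [List.take_append_of_le_length hk]; exact hpre k j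
      · have : (l ++ [i]).take k = l ++ [i] := by
          apply List.take_of_length_le
          simp; omega
        rw [this, List.map_append, List.sum_append, List.map_singleton, List.sum_singleton]
        have h2 : (l.map fun i => v i j).sum = ∑ x ∈ S.erase i, v x j := by
          rw [← hl, List.sum_toFinset _ hnd]
        rw [h2, Finset.sum_erase_add _ _ hi]
        exact hgood j

/-- **Steinitz lemma**: vectors in `ℝ^d` with entries bounded by `M` and sum zero can be
ordered so that all prefix sums have entries bounded by `d * M`. -/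
theorem steinitz {n : ℕ} (v : Fin n → Fin d → ℝ) {M : ℝ} (hM : 0 ≤ M) (hv : ∀ i j, |v i j| ≤ M)
    (hsum : ∀ j, ∑ i, v i j = 0) :
    ∃ l : List (Fin n), l.Nodup ∧ (∀ i, i ∈ l) ∧
      ∀ k j, |((l.take k).map (fun i => v i j)).sum| ≤ d * M := by
  have hor : n ≤ d ∨ ∃ μ, Feas v (Finset.univ : Finset (Fin n)) ((n : ℝ) - d) μ := by
    rcases Nat.lt_or_ge d n with hlt | hge
    · right
      have hn : (0 : ℝ) < n := by exact_mod_cast (by omega : 0 < n)
      have hdn : (d : ℝ) ≤ n := by exact_mod_cast hlt.le
      refine ⟨fun _ => ((n : ℝ) - d) / n, ?_, ?_, ?_⟩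
      · intro i _
        constructor
        · exact div_nonneg (by linarith) hn.le
        · rw [div_le_one hn]
          have : (0 : ℝ) ≤ d := Nat.cast_nonneg d
          linarith
      · intro j
        rw [← Finset.mul_sum, hsum j, mul_zero]
      · rw [Finset.sum_const, Finset.card_univ, Fintype.card_fin, nsmul_eq_mul]
        field_simp
    · exact Or.inl hge
  obtain ⟨l, h1, h2, h3⟩ := chain hM hv n Finset.univ (by simp) hor
  refine ⟨l, h1, fun i => ?_, h3⟩
  rw [← List.mem_toFinset, h2]
  exact Finset.mem_univ i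

end Pool.Agent.N581.Flow
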